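import Mathlib

namespace Pool.Agent.H.MP_99e35a_al

abbrev L := List (Fin 3)
abbrev A (k : Type) [CommRing k] := MonoidAlgebra k (FreeMonoid (Fin 3))

section gen
variable {k M : Type} [CommRing k] [AddCommGroup M] [Module k M]

noncomputable def wd (k : Type) [CommRing k] (l : L) : A k :=
  MonoidAlgebra.single (FreeMonoid.ofList l) 1

lemma wd_append (u v : L) : wd k (u ++ v) = wd k u * wd k v := by
  simp [wd, MonoidAlgebra.single_mul_single]

lemma wd_nil : wd k [] = 1 := rfl

noncomputable def fn (c : L → M) : A k →ₗ[k] M :=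
  Finsupp.linearCombination k (fun m => c m.toList) ∘ₗ
    (MonoidAlgebra.coeffLinearEquiv k).toLinearMap

@[simp] lemma fn_wd (c : L → M) (l : L) : fn c (wd k l) = c l := by
  simp [fn, wd]

lemma lin_ext {f g : A k →ₗ[k] M} (h : ∀ l, f (wd k l) = g (wd k l)) (a : A k) : f a = g a := by
  induction a using MonoidAlgebra.induction_linear with
  | zero => simp
  | add a b ha hb => simp [ha, hb]
  | single m r =>
    have : MonoidAlgebra.single m r = r • wd k m.toList := by simp [wd]
    rw [this, map_smul, map_smul, h]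

lemma fn_wd_mul (c : L → M) (u : L) (a : A k) : fn c (wd k u * a) = fn (fun l => c (u ++ l)) a :=
  lin_ext (f := fn c ∘ₗ LinearMap.mulLeft k (wd k u)) (fun l => by simp [← wd_append]) a

lemma fn_mul_wd (c : L → M) (u : L) (a : A k) : fn c (a * wd k u) = fn (fun l => c (l ++ u)) a :=
  lin_ext (f := fn c ∘ₗ LinearMap.mulRight k (wd k u)) (fun l => by simp [← wd_append]) a

noncomputable def Pos (k : Type) [CommRing k] (D : ℕ) : Submodule k (A k) :=
  Submodule.span k (wd k '' {l | 1 ≤ l.length ∧ l.length ≤ D})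

lemma pos_kill {D : ℕ} {T : A k} (hT : T ∈ Pos k D) (g : A k →ₗ[k] M)
    (h : ∀ l : L, 1 ≤ l.length → l.length ≤ D → g (wd k l) = 0) : g T = 0 :=
  (Submodule.span_le (p := LinearMap.ker g)).2 (by
    rintro _ ⟨l, hl, rfl⟩; exact h l hl.1 hl.2) hT

lemma deg {D : ℕ} {T : A k} (hT : T ∈ Pos k D) (c : L → M) (w : ℕ)
    (hc : ∀ l, w ≤ l.length → c l = 0) (β : L) (i : ℕ) :
    ∀ α : L, w ≤ α.length + i → fn c (wd k α * T ^ i * wd k β) = 0 := by
  induction i with
  | zero => intro α h; simp only [pow_zero, mul_one, ← wd_append, fn_wd]; exact hc _ (by simp; omega)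
  | succ i ih =>
    intro α h
    have := pos_kill hT (fn c ∘ₗ LinearMap.mulRight k (T ^ i * wd k β) ∘ₗ
      LinearMap.mulLeft k (wd k α)) fun l h1 _ => by
        simpa [wd_append, mul_assoc] using ih (α ++ l) (by simp; omega)
    simpa [pow_succ', mul_assoc] using this

def th (w : ℕ) (ψ κ : L → k) (l : L) : k :=
  if w ≤ l.length then ψ (l.take w) * κ (l.drop w) else 0

def ex (w : ℕ) (ψ : L → k) (l : L) : k := if l.length = w then ψ l else 0

lemma th_append (w : ℕ) (ψ κ : L → k) (l x : L) : th w ψ κ (x ++ l) =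
    th w ψ (fun y => κ (y ++ l)) x +
      ∑ n ∈ Finset.range l.length, κ (l.drop (n + 1)) * ex w ψ (x ++ l.take (n + 1)) := by
  by_cases h : w ≤ x.length
  · rw [Finset.sum_eq_zero fun n hn => by
      rw [Finset.mem_range] at hn
      rw [ex, if_neg (by simp; omega), mul_zero]]
    simp [th, h, List.take_append_of_le_length h, List.drop_append_of_le_length h,
      h.trans (Nat.le_add_right _ _)]
  by_cases h' : w ≤ x.length + l.length
  · rw [Finset.sum_eq_single (w - x.length - 1) (fun n hn hne => by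
      rw [Finset.mem_range] at hn
      rw [ex, if_neg (by simp; omega), mul_zero]) (fun hn => absurd (by simp; omega) hn)]
    have e : w - x.length - 1 + 1 = w - x.length := by omega
    rw [e, ex, if_pos (by simp; omega)]
    simp [th, h, h', List.take_append, List.drop_append, List.take_of_length_le (not_le.1 h).le,
      List.drop_of_length_le (not_le.1 h).le, mul_comm]
  · rw [Finset.sum_eq_zero fun n hn => by
      rw [ex, if_neg (by simp; omega), mul_zero]]
    simp [th, h, h']

lemma th_mul (w : ℕ) (ψ κ : L → k) (l : L) (a : A k) : fn (th w ψ κ) (a * wd k l) =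
    fn (th w ψ fun y => κ (y ++ l)) a +
      ∑ n ∈ Finset.range l.length, κ (l.drop (n + 1)) * fn (ex w ψ) (a * wd k (l.take (n + 1))) := by
  have := lin_ext (f := fn (th w ψ κ) ∘ₗ LinearMap.mulRight k (wd k l))
    (g := fn (th w ψ fun y => κ (y ++ l)) + ∑ n ∈ Finset.range l.length, κ (l.drop (n + 1)) •
      fn (ex w ψ) ∘ₗ LinearMap.mulRight k (wd k (l.take (n + 1))))
    (fun x => by simp [← wd_append, th_append]) a
  simpa using this

lemma kill {D : ℕ} {T : A k} (hT : T ∈ Pos k D) (w : ℕ) (ψ : L → k)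
    (H : ∀ (α β : L) j, α.length ≤ D → β.length ≤ D → j ≤ w →
      fn (ex w ψ) (wd k α * T ^ j * wd k β) = 0)
    (a : ℕ) (Φ : L → k) (hΦ : ∀ y : L, y.length = a → ∃ κ : L → k, ∀ x : L, w ≤ x.length →
      Φ (y ++ x) = ψ (x.take w) * κ (x.drop w)) (u' : L) (N : ℕ) :
    ∀ u : L, u.length ≤ a + D → a - u.length + w < N → fn Φ (wd k u * T ^ N * wd k u') = 0 := by
  have H0 : ∀ (α β : L) j, w < j → fn (ex w ψ) (wd k α * T ^ j * wd k β) = 0 := fun α β j hj =>
    deg hT _ (w + 1) (fun l hl => if_neg (by omega)) β j α (by omega)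
  have H1 : ∀ (α β : L) j, α.length ≤ D → β.length ≤ D →
      fn (ex w ψ) (wd k α * T ^ j * wd k β) = 0 := fun α β j h1 h2 => by
    by_cases hj : j ≤ w
    exacts [H α β j h1 h2 hj, H0 α β j (by omega)]
  have c1 : ∀ α : L, α.length ≤ D → ∀ i κ, fn (th w ψ κ) (wd k α * T ^ i) = 0 := by
    intro α hα i
    induction i with
    | zero =>
      intro κ
      simp only [pow_zero, mul_one, fn_wd, th]
      split_ifs with h
      · have := H1 (α.take w) [] 0 (by simp; omega) (by simp)
        simp only [pow_zero, mul_one, wd_nil, fn_wd, ex, List.length_take, min_eq_left h,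
          if_true] at this
        rw [this, zero_mul]
      · rfl
    | succ i ih =>
      intro κ
      have := pos_kill hT (fn (th w ψ κ) ∘ₗ LinearMap.mulLeft k (wd k α * T ^ i)) fun l _ h2 => by
        simp only [LinearMap.comp_apply, LinearMap.mulLeft_apply, th_mul, ih, zero_add]
        exact Finset.sum_eq_zero fun n _ => by rw [H1 _ _ _ hα (by simp; omega), mul_zero]
      simpa [pow_succ, mul_assoc] using this
  have c2 : ∀ N, w < N → ∀ u : L, a ≤ u.length → u.length ≤ a + D →
      fn Φ (wd k u * T ^ N * wd k u') = 0 := fun N hN u h1 h2 => by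
    obtain ⟨κ, hκ⟩ := hΦ (u.take a) (by simp; omega)
    have e := deg hT (fun x => Φ (u.take a ++ x) - th w ψ κ x) w
      (fun x hx => by simp [th, hx, hκ x hx]) u' N (u.drop a) (by omega)
    have e2 : fn (th w ψ κ) (wd k (u.drop a) * T ^ N * wd k u') = 0 := by
      rw [th_mul, c1 _ (by simp; omega), zero_add]
      exact Finset.sum_eq_zero fun n _ => by rw [H0 _ _ _ hN, mul_zero]
    rw [lin_ext (f := fn _) (g := fn (fun x => Φ (u.take a ++ x)) - fn (th w ψ κ))
      (fun x => by simp), LinearMap.sub_apply, e2, sub_zero, ← fn_wd_mul] at e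
    rwa [← mul_assoc, ← mul_assoc, ← wd_append, List.take_append_drop] at e
  induction N with
  | zero => intro u _ h; omega
  | succ N ih =>
    intro u h1 h2
    by_cases h : a ≤ u.length
    · exact c2 _ (by omega) u h h1
    have := pos_kill hT (fn Φ ∘ₗ LinearMap.mulRight k (T ^ N * wd k u') ∘ₗ
      LinearMap.mulLeft k (wd k u)) fun l h3 h4 => by
        simpa [wd_append, mul_assoc] using ih (u ++ l) (by simp; omega) (by simp; omega)
    simpa [pow_succ', mul_assoc] using this

noncomputable def zz (t : Fin 3 → k) : A k := ∑ i, t i • wd k [i]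

lemma fn_zz (t : Fin 3 → k) (c : L → M) (a : A k) :
    fn c (zz t * a) = ∑ i, t i • fn (fun l => c (i :: l)) a := by
  simp [zz, Finset.sum_mul, fn_wd_mul]

lemma hom0 (t : Fin 3 → k) (n : ℕ) : ∀ c : L → M, (∀ l, l.length = n → c l = 0) →
    fn c (zz t ^ n) = 0 := by
  induction n with
  | zero => intro c h; rw [pow_zero, ← wd_nil, fn_wd, h _ rfl]
  | succ n ih =>
    intro c h
    rw [pow_succ', fn_zz]
    exact Finset.sum_eq_zero fun i _ => by rw [ih _ fun l hl => h _ (by simp [hl]), smul_zero]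

lemma hom (t : Fin 3 → k) (n : ℕ) (f g : A k →ₗ[k] M)
    (h : ∀ l, l.length = n → f (wd k l) = g (wd k l)) : f (zz t ^ n) = g (zz t ^ n) := by
  have := hom0 t n (fun l => f (wd k l) - g (wd k l)) fun l hl => by simp [h l hl]
  rw [lin_ext (f := fn _) (g := f - g) (fun x => by simp)] at this
  exact sub_eq_zero.1 this

lemma coef (t : Fin 3 → k) (l0 : L) :
    fn (fun l => if l = l0 then (1 : k) else 0) (zz t ^ l0.length) = (l0.map t).prod := by
  induction l0 with
  | nil => rw [List.length_nil, pow_zero, ← wd_nil, fn_wd]; simp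
  | cons i l0 ih =>
    rw [List.length_cons, pow_succ', fn_zz, Finset.sum_eq_single i (fun j _ hj => by
      rw [hom0 _ _ _ fun l _ => by simp [hj], smul_zero]) (by simp)]
    simp [ih]

end gen

def ee (q : ℕ) (ψ : L → ℚ) (l : L) : ℚ × L :=
  if _h : q ≤ l.length ∧ 0 < l.length then
    (ψ (l.take q) * (ee q ψ (l.drop (q + 1))).1, (l.drop q).take 1 ++ (ee q ψ (l.drop (q + 1))).2)
  else (1, [])
termination_by l.length
decreasing_by all_goals (simp; omega)

lemma ee_block {q : ℕ} (hq : 0 < q) (ψ : L → ℚ) (B Y : L) (hB : B.length = q) :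
    ee q ψ (B ++ Y) = (ψ B * (ee q ψ (Y.drop 1)).1, Y.take 1 ++ (ee q ψ (Y.drop 1)).2) := by
  rw [ee, dif_pos (by simp; omega)]
  subst hB
  simp [List.drop_append, List.drop_of_length_le (Nat.le_succ B.length)]

lemma ee_append {q : ℕ} (hq : 0 < q) (ψ : L → ℚ) (v : L) (n : ℕ) : ∀ u : L,
    u.length = n * (q + 1) → (ee q ψ u).2.length = n ∧
      ee q ψ (u ++ v) = ((ee q ψ u).1 * (ee q ψ v).1, (ee q ψ u).2 ++ (ee q ψ v).2) := by
  induction n with
  | zero =>
    intro u hu
    have : u = [] := by simpa using hu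
    subst this
    have : ee q ψ [] = (1, []) := by rw [ee]; simp
    simp [this]
  | succ n ih =>
    intro u hu
    rw [add_mul] at hu
    obtain ⟨B, Y, rfl, hB⟩ : ∃ B Y, u = B ++ Y ∧ B.length = q :=
      ⟨u.take q, u.drop q, by simp, by simp; omega⟩
    rcases Y with _ | ⟨x, Y⟩
    · simp at hu; omega
    obtain ⟨h1, h2⟩ := ih Y (by simp at hu; omega)
    rw [List.append_assoc, ee_block hq ψ B _ hB, ee_block hq ψ B _ hB]
    simp [h1, h2, mul_assoc]

end Pool.Agent.H.MP_99e35a_al
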