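import Mathlib
import Pool.Agent.H.MP_99e35a_al.A

namespace Pool.Agent.H.MP_99e35a_al

abbrev K := FractionRing (MvPolynomial (Fin 3) ℚ)

noncomputable def tt (i : Fin 3) : K := algebraMap (MvPolynomial (Fin 3) ℚ) K (MvPolynomial.X i)

structure St where
  P : ℕ
  s : L → ℚ
  p : L → L

noncomputable def St.D (st : St) : A K →ₗ[K] A K :=
  fn fun l => algebraMap ℚ K (st.s l) • wd K (st.p l)

def Good (st : St) : Prop :=
  0 < st.P ∧ (∀ u v : L, st.P ∣ u.length →
    st.s (u ++ v) = st.s u * st.s v ∧ st.p (u ++ v) = st.p u ++ st.p v) ∧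
  (∀ (u : L) n, u.length = n * st.P → (st.p u).length = n) ∧
  ∃ c : K, c ≠ 0 ∧ ∀ n, st.D (zz tt ^ (n * st.P)) = c ^ n • zz tt ^ n

def Kill (st : St) (T : A ℚ) (N : ℕ) : Prop :=
  ∀ (μ : ℕ → L → ℚ) (u u' : L),
    fn (fun l => st.s l * μ l.length (st.p l)) (wd ℚ u * T ^ N * wd ℚ u') = 0

def rp (n : ℕ) (e : Fin (n + 1) × Fin (n + 1)) : L :=
  List.replicate e.1 0 ++ List.replicate e.2 1 ++ List.replicate (2 * n - e.1 - e.2) 2

lemma rp_len (n : ℕ) (e : Fin (n + 1) × Fin (n + 1)) : (rp n e).length = 2 * n := by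
  have := e.1.2; have := e.2.2
  simp [rp]; omega

lemma psi_ex (n : ℕ) {ι : Type} [Fintype ι] (h : Fintype.card ι < (n + 1) ^ 2)
    (F : ι → (L → ℚ) →ₗ[ℚ] ℚ) : ∃ ψ : L → ℚ, (∀ i, F i ψ = 0) ∧
      fn (fun l => algebraMap ℚ K (ψ l)) (zz tt ^ (2 * n)) ≠ 0 := by
  classical
  let G : (Fin (n + 1) × Fin (n + 1) → ℚ) →ₗ[ℚ] (L → ℚ) :=
    ∑ e, (LinearMap.proj e).smulRight fun l => if l = rp n e then 1 else 0
  obtain ⟨c, hc, hc0⟩ := (Submodule.ne_bot_iff _).1 (LinearMap.ker_ne_bot_of_finrank_lt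
    (f := LinearMap.pi fun i => F i ∘ₗ G) (by simpa [pow_two] using h))
  refine ⟨G c, fun i => congrFun hc i, fun h0 => hc0 ?_⟩
  rw [lin_ext (f := fn _) (g := ∑ e, algebraMap ℚ K (c e) •
    fn (fun l => if l = rp n e then (1 : K) else 0)) (fun l => by
      simp [G, apply_ite (algebraMap ℚ K)])] at h0
  let m : Fin (n + 1) × Fin (n + 1) → Fin 3 →₀ ℕ := fun e =>
    Finsupp.single (0 : Fin 3) (e.1 : ℕ) + Finsupp.single (1 : Fin 3) (e.2 : ℕ) +
      Finsupp.single (2 : Fin 3) (2 * n - (e.1 : ℕ) - (e.2 : ℕ))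
  have h1 : algebraMap (MvPolynomial (Fin 3) ℚ) K (∑ e, MvPolynomial.monomial (m e) (c e)) = 0 := by
    rw [← h0, map_sum, LinearMap.sum_apply]
    refine Finset.sum_congr rfl fun e _ => ?_
    have := coef tt (rp n e)
    rw [rp_len] at this
    rw [LinearMap.smul_apply, this]
    simp only [m, MvPolynomial.monomial_add_single, rp, tt, List.map_append, List.map_replicate,
      List.prod_append, List.prod_replicate, map_mul, map_pow, smul_eq_mul,
      ← MvPolynomial.C_mul_X_pow_eq_monomial, mul_assoc]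
    rw [IsScalarTower.algebraMap_apply ℚ (MvPolynomial (Fin 3) ℚ) K, MvPolynomial.algebraMap_eq]
  rw [map_eq_zero_iff _ (IsFractionRing.injective _ _)] at h1
  funext e
  have := congrArg (MvPolynomial.coeff (m e)) h1
  rw [MvPolynomial.coeff_sum, Finset.sum_eq_single e (fun e' _ hne => by
    rw [MvPolynomial.coeff_monomial, if_neg fun h => hne (Prod.ext
      (Fin.ext (by simpa [m] using DFunLike.congr_fun h 0))
      (Fin.ext (by simpa [m] using DFunLike.congr_fun h 1)))]) (by simp)] at this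
  simpa using this

lemma step (st : St) (h : Good st) {D : ℕ} {T : A ℚ} (hT : T ∈ Pos ℚ D) :
    ∃ st' N, Good st' ∧ st.P < st'.P ∧ Kill st' T N ∧ ∀ T' N', Kill st T' N' → Kill st' T' N' := by
  classical
  obtain ⟨h0, h1, h2, c, hc, h3⟩ := h
  let W := (List.finite_length_le (Fin 3) D).toFinset
  let C := W.card * W.card
  let n := 2 * C * st.P + C + 1
  let w := 2 * n * st.P
  obtain ⟨ψ, p1, p2⟩ := psi_ex n (ι := W × W × Fin (w + 1))
    (by
      have : C * (w + 1) < (n + 1) ^ 2 := by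
        have e1 : C * (w + 1) = (2 * C * st.P) * n + C := by simp only [w]; ring
        have e2 : (2 * C * st.P) * n ≤ n * n := Nat.mul_le_mul_right _ (by omega)
        have e3 : (n + 1) ^ 2 = n * n + 2 * n + 1 := by ring
        omega
      simpa [C, mul_assoc] using this)
    (fun i =>
      { toFun := fun ψ => fn (ex w fun b => st.s b * ψ (st.p b))
          (wd ℚ i.1.1 * T ^ i.2.2.1 * wd ℚ i.2.1.1)
        map_add' := fun a b => lin_ext (f := fn _) (g := fn _ + fn _) (fun l => by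
          simp only [fn_wd, LinearMap.add_apply, ex, Pi.add_apply]; split_ifs <;> ring) _
        map_smul' := fun r a => lin_ext (k := ℚ) (f := fn (ex w fun b => st.s b * (r • a) (st.p b)))
          (g := r • fn (ex w fun b => st.s b * a (st.p b))) (fun l => by
          simp only [fn_wd, LinearMap.smul_apply, ex, Pi.smul_apply, smul_eq_mul]
          split_ifs <;> ring) _ })
  have hq : 0 < 2 * n := by omega
  let E : A K →ₗ[K] A K := fn fun l => algebraMap ℚ K (ee (2 * n) ψ l).1 • wd K (ee (2 * n) ψ l).2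
  let st' : St := ⟨(2 * n + 1) * st.P, fun l => st.s l * (ee (2 * n) ψ (st.p l)).1,
    fun l => (ee (2 * n) ψ (st.p l)).2⟩
  have hE : ∀ m, E (zz tt ^ (m * (2 * n + 1))) =
      fn (fun l => algebraMap ℚ K (ψ l)) (zz tt ^ (2 * n)) ^ m • zz tt ^ m := fun m => by
    induction m with
    | zero =>
      have : ee (2 * n) ψ [] = (1, []) := by rw [ee]; simp
      simp only [zero_mul, pow_zero, one_smul]
      rw [← wd_nil, fn_wd, this]; simp
    | succ m ih =>
      have e : ∀ a, E (zz tt ^ (2 * n) * (zz tt * a)) =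
          fn (fun l => algebraMap ℚ K (ψ l)) (zz tt ^ (2 * n)) • (zz tt * E a) := fun a =>
        hom tt (2 * n) (E ∘ₗ LinearMap.mulRight K (zz tt * a))
          ((fn fun l => algebraMap ℚ K (ψ l)).smulRight (zz tt * E a)) fun B hB => by
            simp only [LinearMap.comp_apply, LinearMap.mulRight_apply, LinearMap.smulRight_apply,
              fn_wd, E, fn_wd_mul, fn_zz]
            simp only [zz, Finset.sum_mul, Finset.smul_sum, smul_mul_assoc]
            refine Finset.sum_congr rfl fun i _ => ?_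
            rw [smul_comm]
            congr 1
            exact lin_ext (f := fn _) (g := algebraMap ℚ K (ψ B) •
              (LinearMap.mulLeft K (wd K [i]) ∘ₗ E)) (fun l => by
                simp [E, ee_block hq ψ B _ hB, ← wd_append, smul_smul]) a
      rw [add_mul, one_mul, add_comm, pow_add, pow_succ, mul_assoc, e, ih, mul_smul_comm, smul_smul,
        ← pow_succ', ← pow_succ']
  have hal : ∀ u : L, (2 * n + 1) * st.P ∣ u.length → ∃ m, u.length = m * (2 * n + 1) * st.P :=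
    fun u ⟨m, hm⟩ => ⟨m, by rw [hm]; ring⟩
  refine ⟨st', (2 * n + 1) * st.P + w + 1, ⟨by positivity, fun u v hu => ?_, fun u m hu => ?_,
    c ^ (2 * n + 1) * _, mul_ne_zero (pow_ne_zero _ hc) p2, fun m => ?_⟩,
    by simp only [st']; nlinarith, fun μ u u' => ?_, fun T' N' hk μ u u' => ?_⟩
  · obtain ⟨m, hm⟩ := hal u hu
    obtain ⟨a1, a2⟩ := h1 u v (hm ▸ Dvd.intro_left _ rfl)
    simp only [st', a1, a2, (ee_append hq ψ (st.p v) m _ (h2 u _ hm)).2, and_true]
    ring
  · exact (ee_append hq ψ [] m _ (h2 u _ (by rw [hu, mul_assoc]))).1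
  · rw [lin_ext (f := st'.D) (g := E ∘ₗ st.D) (fun l => by simp [St.D, st', E, smul_smul])]
    simp only [st', LinearMap.comp_apply]
    rw [← mul_assoc, h3, map_smul, hE, smul_smul, mul_pow, ← pow_mul, mul_comm m]
  · have hP : 0 < (2 * n + 1) * st.P := by positivity
    have hd := Nat.div_add_mod u.length ((2 * n + 1) * st.P)
    have hm := Nat.mod_lt u.length hP
    refine kill hT w (fun b => st.s b * ψ (st.p b)) (fun α β j a1 a2 a3 =>
      p1 (⟨α, by simpa [W] using a1⟩, ⟨β, by simpa [W] using a2⟩, ⟨j, by omega⟩))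
      ((2 * n + 1) * st.P * (u.length / ((2 * n + 1) * st.P) + 1)) _ (fun y hy => ?_) u' _ u
      (by rw [mul_add]; omega) (by rw [mul_add]; omega)
    obtain ⟨m, hm⟩ := hal y (hy ▸ Dvd.intro _ rfl)
    refine ⟨fun y' => st.s y * st.s y' * (ee (2 * n) ψ (st.p y)).1 *
      (ee (2 * n) ψ ((st.p y').drop 1)).1 * μ (y.length + (w + y'.length))
        ((ee (2 * n) ψ (st.p y)).2 ++ ((st.p y').take 1 ++ (ee (2 * n) ψ ((st.p y').drop 1)).2)),
      fun x hx => ?_⟩
    obtain ⟨b, y', rfl, hb⟩ : ∃ b y', x = b ++ y' ∧ b.length = w :=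
      ⟨x.take w, x.drop w, by simp, by simp; omega⟩
    obtain ⟨a1, a2⟩ := h1 y (b ++ y') (hm ▸ Dvd.intro_left _ rfl)
    obtain ⟨a3, a4⟩ := h1 b y' (hb ▸ Dvd.intro_left _ rfl)
    simp only [st', a1, a2, a3, a4, (ee_append hq ψ _ m _ (h2 y _ hm)).2,
      ee_block hq ψ _ _ (h2 b _ hb), List.length_append, hb, List.take_left' hb,
      List.drop_left' hb]
    ring
  · simpa [st', mul_assoc] using
      hk (fun m l => (ee (2 * n) ψ l).1 * μ m (ee (2 * n) ψ l).2) u u'

def Plus (T : A ℚ) : Prop := ∃ D, T ∈ Pos ℚ D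

theorem main : ∃ (P : ℕ → ℕ) (Φ : ℕ → L → ℚ), StrictMono P ∧
    (∀ J l, l.length ≠ P J → Φ J l = 0) ∧
    (∀ J, fn (fun l => algebraMap ℚ K (Φ J l)) (zz tt ^ P J) ≠ 0) ∧
    ∀ T, Plus T → ∃ N, ∀ J u u', fn (Φ J) (wd ℚ u * T ^ N * wd ℚ u') = 0 := by
  classical
  have : Countable (FreeMonoid (Fin 3)) := inferInstanceAs (Countable L)
  have : Countable (A ℚ) := MonoidAlgebra.coeffEquiv.countable_iff.2 inferInstance
  obtain ⟨e, he⟩ := exists_surjective_nat (A ℚ)
  have hs : ∀ (st : {st // Good st}) (T : A ℚ), ∃ (st' : {st // Good st}) (N : ℕ),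
      st.1.P < st'.1.P ∧ (Plus T → Kill st'.1 T N) ∧
        ∀ T' N', Kill st.1 T' N' → Kill st'.1 T' N' := fun st T => by
    by_cases hT : Plus T
    · obtain ⟨D, hD⟩ := hT
      obtain ⟨st', N, a1, a2, a3, a4⟩ := step st.1 st.2 hD
      exact ⟨⟨st', a1⟩, N, a2, fun _ => a3, a4⟩
    · obtain ⟨st', N, a1, a2, -, a4⟩ := step st.1 st.2 (zero_mem (Pos ℚ 0))
      exact ⟨⟨st', a1⟩, N, a2, fun h => absurd h hT, a4⟩
  choose nx NN n1 n2 n3 using hs
  have g0 : Good ⟨1, fun _ => 1, id⟩ := ⟨one_pos, by simp, by simp, 1, one_ne_zero, fun n => by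
    rw [lin_ext (f := St.D _) (g := LinearMap.id) (fun l => by simp [St.D])]; simp⟩
  let st : ℕ → {st // Good st} := fun n => Nat.rec ⟨_, g0⟩ (fun i s => nx s (e i)) n
  have hP : StrictMono fun J => (st J).1.P := strictMono_nat_of_lt_succ fun J => n1 _ _
  refine ⟨fun J => (st J).1.P, fun J l => (st J).1.s l *
    if l.length = (st J).1.P ∧ (st J).1.p l = [0] then 1 else 0, hP,
    fun J l hl => by simp [hl], fun J => ?_, fun T hT => ?_⟩
  · obtain ⟨-, -, -, c, hc, h⟩ := (st J).2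
    have := h 1
    rw [one_mul, pow_one, pow_one] at this
    rw [hom tt _ (fn _) (fn (fun l => if l = [0] then (1 : K) else 0) ∘ₗ (st J).1.D)
      (fun l hl => by simp [St.D, hl, apply_ite (algebraMap ℚ K)]), LinearMap.comp_apply, this,
      map_smul]
    have h2 := coef tt [0]
    simp only [List.length_singleton, pow_one] at h2
    rw [h2]
    simp [hc, tt]
  · obtain ⟨i, rfl⟩ := he T
    have hk : ∀ J, Kill (st (i + 1 + J)).1 (e i) (NN (st i) (e i)) := fun J => by
      induction J with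
      | zero => exact n2 _ _ hT
      | succ J ih => exact n3 _ _ _ _ ih
    obtain ⟨D, hD⟩ := hT
    refine ⟨NN (st i) (e i) + ((st i).1.P + 1), fun J u u' => ?_⟩
    by_cases hJ : J ≤ i
    · have := hP.monotone hJ
      exact deg hD _ ((st J).1.P + 1) (fun l hl => by beta_reduce; rw [if_neg (by omega), mul_zero]) _ _ _
        (by omega)
    · obtain ⟨J, rfl⟩ : ∃ J', J = i + 1 + J' := ⟨J - (i + 1), by omega⟩
      rw [pow_add, ← mul_assoc, mul_assoc]
      exact lin_ext (f := fn (fun l => (st (i + 1 + J)).1.s l *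
        if l.length = (st (i + 1 + J)).1.P ∧ (st (i + 1 + J)).1.p l = [0] then 1 else 0) ∘ₗ
          LinearMap.mulLeft ℚ (wd ℚ u * e i ^ NN (st i) (e i))) (g := 0)
        (fun v => hk J (fun m l => if m = (st (i + 1 + J)).1.P ∧ l = [0] then 1 else 0) u v) _

end Pool.Agent.H.MP_99e35a_al
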