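import Mathlib
import Pool.Agent.H.MP_99e35a_al.B

namespace Pool.Agent.H.MP_99e35a_al

noncomputable def io : A ℚ →+* A K := MonoidAlgebra.mapRingHom _ (algebraMap ℚ K)

lemma io_wd (l : L) : io (wd ℚ l) = wd K l := by simp [io, wd]

lemma fn_io (c : L → ℚ) (a : A ℚ) :
    fn (fun l => algebraMap ℚ K (c l)) (io a) = algebraMap ℚ K (fn c a) := by
  induction a using MonoidAlgebra.induction_linear with
  | zero => simp only [map_zero]
  | add a b ha hb => simp only [map_add, ha, hb]
  | single m r =>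
    have e1 : MonoidAlgebra.single m r = r • wd ℚ m.toList := by simp [wd]
    have e2 : io (MonoidAlgebra.single m r) = algebraMap ℚ K r • wd K m.toList := by simp [io, wd]
    rw [e2, e1, map_smul, map_smul, fn_wd, fn_wd, smul_eq_mul, smul_eq_mul, map_mul]

noncomputable def PP : Submodule ℚ (A ℚ) := Submodule.span ℚ (wd ℚ '' {l | 1 ≤ l.length})

lemma pos_mono {D D' : ℕ} (h : D ≤ D') : Pos ℚ D ≤ Pos ℚ D' :=
  Submodule.span_mono (Set.image_mono fun _ hl => ⟨hl.1, hl.2.trans h⟩)

lemma PP_plus {T : A ℚ} (h : T ∈ PP) : Plus T := by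
  induction h using Submodule.span_induction with
  | mem x hx => obtain ⟨l, hl, rfl⟩ := hx; exact ⟨_, Submodule.subset_span ⟨l, ⟨hl, le_rfl⟩, rfl⟩⟩
  | zero => exact ⟨0, zero_mem _⟩
  | add x y _ _ hx hy =>
    obtain ⟨a, ha⟩ := hx; obtain ⟨b, hb⟩ := hy
    exact ⟨a + b, add_mem (pos_mono (by omega) ha) (pos_mono (by omega) hb)⟩
  | smul r x _ hx => obtain ⟨a, ha⟩ := hx; exact ⟨a, Submodule.smul_mem _ _ ha⟩

lemma PP_mul (a : A ℚ) {b : A ℚ} (h : b ∈ PP) : a * b ∈ PP := by
  induction h using Submodule.span_induction with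
  | mem x hx =>
    obtain ⟨l, hl, rfl⟩ := hx
    exact (Submodule.Quotient.mk_eq_zero _).1 (lin_ext
      (f := PP.mkQ ∘ₗ LinearMap.mulRight ℚ (wd ℚ l)) (g := 0) (fun u => by
        simp only [LinearMap.comp_apply, LinearMap.mulRight_apply, ← wd_append, Submodule.mkQ_apply,
          LinearMap.zero_apply, Submodule.Quotient.mk_eq_zero]
        exact Submodule.subset_span ⟨_, by simp at hl ⊢; omega, rfl⟩) a)
  | zero => simp
  | add x y _ _ hx hy => rw [mul_add]; exact add_mem hx hy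
  | smul r x _ hx => rw [mul_smul_comm]; exact Submodule.smul_mem _ _ hx

lemma zz_pos : zz tt ∈ Pos K 1 :=
  Submodule.sum_mem _ fun i _ => Submodule.smul_mem _ _
    (Submodule.subset_span ⟨[i], by simp, rfl⟩)

theorem ex_max : ∃ m : Ideal (A K), m.IsMaximal ∧ 1 - zz tt ∈ m ∧
    ∀ T ∈ PP, ∃ N, ∀ b, io T ^ N * b ∈ m := by
  obtain ⟨P, Φ, hP, h1, h2, h3⟩ := main
  let Ψ : ℕ → A K →ₗ[K] K := fun J => fn fun l => algebraMap ℚ K (Φ J l)
  let I : Ideal (A K) :=
    { carrier := {a | ∀ J u u', Ψ J (u * a * u') = 0}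
      add_mem' := fun {a b} ha hb J u u' => by rw [mul_add, add_mul, map_add, ha, hb, add_zero]
      zero_mem' := fun J u u' => by simp
      smul_mem' := fun c a ha J u u' => by simpa [mul_assoc] using ha J (u * c) u' }
  have hI : I ⊔ Ideal.span {1 - zz tt} ≠ ⊤ := fun h => by
    obtain ⟨i, hi, _, hb, e⟩ := Submodule.mem_sup.1 (h ▸ Submodule.mem_top : (1 : A K) ∈ _)
    obtain ⟨a, rfl⟩ := Ideal.mem_span_singleton'.1 hb
    have ha : ∀ a : A K, ∃ J0, ∀ J, J0 ≤ J → Ψ J a = 0 := fun a => by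
      induction a using MonoidAlgebra.induction_linear with
      | zero => simp
      | add a b ha hb =>
        obtain ⟨x, hx⟩ := ha; obtain ⟨y, hy⟩ := hb
        exact ⟨x + y, fun J hJ => by rw [map_add, hx J (by omega), hy J (by omega), add_zero]⟩
      | single m r =>
        have : MonoidAlgebra.single m r = r • wd K m.toList := by simp [wd]
        refine ⟨m.toList.length + 1, fun J hJ => ?_⟩
        have := hP.id_le J
        rw [‹MonoidAlgebra.single m r = _›, map_smul, fn_wd, h1 _ _ (by simp only [id] at this; omega)]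
        simp
    obtain ⟨J, hJ⟩ := ha a
    have e2 := congrArg (fun x => Ψ J (x * ∑ n ∈ Finset.range (P J + 1), zz tt ^ n)) e
    simp only [add_mul, map_add, mul_assoc, mul_neg_geom_sum, one_mul] at e2
    rw [mul_sub, mul_one, map_sub] at e2
    have e3 := hi J 1 (∑ n ∈ Finset.range (P J + 1), zz tt ^ n)
    rw [one_mul] at e3
    have e4 : Ψ J (a * zz tt ^ (P J + 1)) = 0 :=
      lin_ext (f := Ψ J ∘ₗ LinearMap.mulRight K (zz tt ^ (P J + 1))) (g := 0) (fun l => by
        simpa [wd_nil, Ψ] using deg zz_pos (fun l => algebraMap ℚ K (Φ J l)) (P J + 1)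
          (fun l hl => by rw [h1 _ _ (by omega), map_zero]) [] (P J + 1) l (by omega)) a
    rw [e3, e4, hJ J le_rfl, map_sum, Finset.sum_range_succ, Finset.sum_eq_zero fun n hn =>
      hom0 tt n _ fun l hl => by
        rw [Finset.mem_range] at hn; rw [h1 _ _ (by omega), map_zero]] at e2
    exact h2 J (by simpa [Ψ] using e2.symm)
  obtain ⟨m, hm, hle⟩ := Ideal.exists_le_maximal _ hI
  refine ⟨m, hm, hle (Ideal.mem_sup_right (Ideal.subset_span rfl)), fun T hT => ?_⟩
  obtain ⟨N, hN⟩ := h3 T (PP_plus hT)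
  refine ⟨N, fun b => hle (Ideal.mem_sup_left fun J u u' => ?_)⟩
  rw [mul_assoc, mul_assoc]
  refine lin_ext (f := Ψ J ∘ₗ LinearMap.mulRight K (io T ^ N * (b * u'))) (g := 0) (fun x => ?_) u
  refine lin_ext (f := Ψ J ∘ₗ LinearMap.mulLeft K (wd K x) ∘ₗ LinearMap.mulLeft K (io T ^ N))
    (g := 0) (fun y => ?_) (b * u')
  have := fn_io (Φ J) (wd ℚ x * T ^ N * wd ℚ y)
  rw [hN, map_zero] at this
  simpa [io_wd, mul_assoc, Ψ] using this

theorem final : ¬ (∀ (k : Type) [Field k] [CharZero k] (G : Type) [Group G]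
      (V : Type) [AddCommGroup V] [Module k V] (ρ : Representation k G V),
      Nontrivial V →
      (∀ W : Submodule k V, (∀ g : G, ∀ v ∈ W, ρ g v ∈ W) → W = ⊥ ∨ W = ⊤) →
      (∀ g : G, ∀ v : V, ∃ n : ℕ, ((ρ g - 1) ^ n) v = 0) →
      ∀ g : G, ρ g = 1) := by
  intro H
  obtain ⟨m, hm, hz, hN⟩ := ex_max
  let V := A K ⧸ (m : Submodule (A K) (A K))
  have hs : IsSimpleModule (A K) V := isSimpleModule_iff_isCoatom.2 hm.out
  let φ0 : A K →ₐ[K] Module.End K V := Algebra.lsmul K K V
  let φ : A ℚ →+* Module.End K V := φ0.toRingHom.comp io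
  have hφ : ∀ T v, φ T v = io T • v := fun _ _ => rfl
  have nil : ∀ T ∈ PP, IsNilpotent (φ T) := fun T hT => by
    obtain ⟨N, h⟩ := hN T hT
    refine ⟨N, LinearMap.ext fun v => ?_⟩
    obtain ⟨b, rfl⟩ := Submodule.Quotient.mk_surjective _ v
    rw [← map_pow, hφ, map_pow]
    exact (Submodule.Quotient.mk_eq_zero _).2 (h b)
  let G : Subgroup (Module.End K V)ˣ :=
    { carrier := {g | ∃ T ∈ PP, g.val = 1 + φ T}
      mul_mem' := by
        rintro a b ⟨S, hS, ea⟩ ⟨T, hT, eb⟩
        exact ⟨S + T + S * T, add_mem (add_mem hS hT) (PP_mul _ hT), by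
          rw [Units.val_mul, ea, eb, map_add, map_add, map_mul]; noncomm_ring⟩
      one_mem' := ⟨0, zero_mem _, by simp⟩
      inv_mem' := by
        rintro a ⟨T, hT, e⟩
        obtain ⟨N, h⟩ := (nil T hT).neg
        refine ⟨∑ n ∈ Finset.range N, (-T) ^ (n + 1), Submodule.sum_mem _ fun n _ => by
          rw [pow_succ]; exact PP_mul _ (neg_mem hT), Units.inv_eq_of_mul_eq_one_right ?_⟩
        have := mul_neg_geom_sum (-φ T) (N + 1)
        rw [Finset.sum_range_succ', pow_succ _ N, h] at this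
        simpa [e, add_comm] using this }
  have hG : ∀ T ∈ PP, ∃ g : G, g.1.val = 1 + φ T := fun T hT =>
    ⟨⟨(nil T hT).isUnit_one_add.unit, T, hT, rfl⟩, rfl⟩
  have hw : ∀ l : L, l ≠ [] → wd ℚ l ∈ PP := fun l hl =>
    Submodule.subset_span ⟨l, List.length_pos_iff.2 hl, rfl⟩
  have := H K G V ((Units.coeHom _).comp G.subtype) (IsSimpleModule.nontrivial (A K) V)

  refine absurd (this (fun W hW => ?_) fun g v => ?_) fun this => ?_
  rotate_left 2
  · have h0 : ∀ i (v : V), wd K [i] • v = 0 := fun i v => by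
      obtain ⟨g, hg⟩ := hG _ (hw [i] (by simp))
      have e : 1 = 1 + φ (wd ℚ [i]) := (this g).symm.trans hg
      rw [← io_wd, ← hφ, left_eq_add.1 e, LinearMap.zero_apply]
    have h1 : zz tt • (Submodule.Quotient.mk 1 : V) = 0 := by
      simp [zz, Finset.sum_smul, h0]
    have h2 : zz tt * 1 ∈ m := (Submodule.Quotient.mk_eq_zero _).1 h1
    exact hm.ne_top ((Ideal.eq_top_iff_one _).2 (by simpa using add_mem hz h2))
  · let W' : Submodule (A K) V :=
      { W.toAddSubmonoid with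
        smul_mem' := fun a v hv => (Submodule.Quotient.mk_eq_zero W).1 (lin_ext
          (f := W.mkQ ∘ₗ (LinearMap.toSpanSingleton (A K) V v).restrictScalars K) (g := 0)
          (fun l => (Submodule.Quotient.mk_eq_zero W).2 (by
            by_cases hl : l = []
            · simpa [hl, wd_nil] using hv
            obtain ⟨g, hg⟩ := hG _ (hw l hl)
            have := sub_mem (hW g v hv) hv
            simpa [hg, hφ, io_wd] using this)) a) }
    rcases eq_bot_or_eq_top W' with h | h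
    · exact Or.inl (Submodule.ext fun v => SetLike.ext_iff.1 h v)
    · exact Or.inr (Submodule.ext fun v => SetLike.ext_iff.1 h v)
  · obtain ⟨g, T, hT, e⟩ := g
    obtain ⟨N, h⟩ := nil T hT
    exact ⟨N, by simp [e, h]⟩

end Pool.Agent.H.MP_99e35a_al
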